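import Mathlib

set_option autoImplicit false

namespace Pool.Agent.H377R3.EN

open Matrix

variable {V : Type*} [Fintype V] [DecidableEq V]

/-- spectral data -/
lemma exists_spec {A : Matrix V V ℝ} (hA : A.IsHermitian) :
    ∃ (lam : V → ℝ) (U : Matrix V V ℝ),
      (A.charpoly.roots.map (fun x : ℝ => |x|)).sum = ∑ i, |lam i| ∧
      (∀ a b, A a b = ∑ i, lam i * (U a i * U b i)) ∧
      (∀ a b, ∑ i, U a i * U b i = if a = b then 1 else 0) ∧
      (∀ i j, ∑ a, U a i * U a j = if i = j then 1 else 0) := by
  refine ⟨hA.eigenvalues, (hA.eigenvectorUnitary : Matrix V V ℝ), ?_, ?_, ?_, ?_⟩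
  · rw [hA.roots_charpoly_eq_eigenvalues, Multiset.map_map]
    rfl
  · intro a b
    have h := hA.spectral_theorem
    rw [Unitary.conjStarAlgAut_apply] at h
    have h2 := congrFun (congrFun h a) b
    rw [h2, Matrix.mul_apply]
    apply Finset.sum_congr rfl
    intro i _
    rw [Matrix.mul_diagonal]
    simp [Matrix.star_apply]
    ring
  · intro a b
    have h : (hA.eigenvectorUnitary : Matrix V V ℝ) * star (hA.eigenvectorUnitary : Matrix V V ℝ)
        = 1 := Unitary.coe_mul_star_self _
    have h2 := congrFun (congrFun h a) b
    rw [Matrix.mul_apply, Matrix.one_apply] at h2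
    rw [← h2]
    apply Finset.sum_congr rfl
    intro i _
    simp [Matrix.star_apply]
  · intro i j
    have h : star (hA.eigenvectorUnitary : Matrix V V ℝ) * (hA.eigenvectorUnitary : Matrix V V ℝ)
        = 1 := Unitary.coe_star_mul_self _
    have h2 := congrFun (congrFun h i) j
    rw [Matrix.mul_apply, Matrix.one_apply] at h2
    rw [← h2]
    apply Finset.sum_congr rfl
    intro a _
    simp [Matrix.star_apply]

/-- dual certificate for an upper bound -/
lemma energy_upper {A : Matrix V V ℝ} (hA : A.IsHermitian) :
    ∃ W : V → V → ℝ, (∀ a b, W a b = W b a) ∧ (∀ a, ∑ b, W a b ^ 2 ≤ 1) ∧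
      (A.charpoly.roots.map (fun x : ℝ => |x|)).sum = ∑ a, ∑ b, A a b * W a b := by
  obtain ⟨lam, U, hs, hAab, hr, hc⟩ := exists_spec hA
  set s : V → ℝ := fun i => if 0 ≤ lam i then 1 else -1 with hsdef
  have hs2 : ∀ i, s i * s i = 1 := by
    intro i; simp only [hsdef]; split_ifs <;> norm_num
  have hsl : ∀ i, lam i * s i = |lam i| := by
    intro i; simp only [hsdef]
    split_ifs with h
    · rw [abs_of_nonneg h]; ring
    · rw [abs_of_neg (not_le.mp h)]; ring
  refine ⟨fun a b => ∑ i, s i * (U a i * U b i), ?_, ?_, ?_⟩
  · intro a b
    apply Finset.sum_congr rfl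
    intro i _; ring
  · intro a
    have : ∑ b, (∑ i, s i * (U a i * U b i)) ^ 2 = 1 := by
      calc ∑ b, (∑ i, s i * (U a i * U b i)) ^ 2
          = ∑ b, ∑ i, ∑ j, (s i * (U a i * U b i)) * (s j * (U a j * U b j)) := by
            apply Finset.sum_congr rfl
            intro b _
            rw [sq, Finset.sum_mul_sum]
        _ = ∑ i, ∑ j, ∑ b, (s i * (U a i * U b i)) * (s j * (U a j * U b j)) := by
            rw [Finset.sum_comm]
            apply Finset.sum_congr rfl
            intro i _
            rw [Finset.sum_comm]
        _ = ∑ i, ∑ j, (s i * s j * (U a i * U a j)) * (∑ b, U b i * U b j) := by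
            apply Finset.sum_congr rfl
            intro i _
            apply Finset.sum_congr rfl
            intro j _
            rw [Finset.mul_sum]
            apply Finset.sum_congr rfl
            intro b _
            ring
        _ = ∑ i, U a i * U a i := by
            apply Finset.sum_congr rfl
            intro i _
            simp only [hc, mul_ite, mul_one, mul_zero, Finset.sum_ite_eq, Finset.mem_univ, if_true]
            rw [hs2, one_mul]
        _ = 1 := by rw [hr]; simp
    exact this.le
  · rw [hs]
    symm
    calc ∑ a, ∑ b, A a b * ∑ i, s i * (U a i * U b i)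
        = ∑ a, ∑ b, ∑ i, ∑ j, (lam j * (U a j * U b j)) * (s i * (U a i * U b i)) := by
          apply Finset.sum_congr rfl
          intro a _
          apply Finset.sum_congr rfl
          intro b _
          rw [hAab, Finset.sum_mul_sum, Finset.sum_comm]
      _ = ∑ i, ∑ j, (lam j * s i) * ((∑ a, U a j * U a i) * (∑ b, U b j * U b i)) := by
          have e1 : ∀ a, ∑ b, ∑ i, ∑ j, (lam j * (U a j * U b j)) * (s i * (U a i * U b i))
              = ∑ i, ∑ j, ∑ b, (lam j * (U a j * U b j)) * (s i * (U a i * U b i)) := by
            intro a
            rw [Finset.sum_comm]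
            apply Finset.sum_congr rfl
            intro i _
            rw [Finset.sum_comm]
          simp only [e1]
          rw [Finset.sum_comm]
          apply Finset.sum_congr rfl
          intro i _
          rw [Finset.sum_comm]
          apply Finset.sum_congr rfl
          intro j _
          rw [Finset.sum_mul_sum, Finset.mul_sum]
          apply Finset.sum_congr rfl
          intro a _
          rw [Finset.mul_sum]
          apply Finset.sum_congr rfl
          intro b _
          ring
      _ = ∑ i, |lam i| := by
          apply Finset.sum_congr rfl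
          intro i _
          have : ∀ j, (lam j * s i) * ((∑ a, U a j * U a i) * (∑ b, U b j * U b i))
              = if j = i then lam j * s i else 0 := by
            intro j
            rw [hc]
            split_ifs <;> ring
          simp only [this, Finset.sum_ite_eq', Finset.mem_univ, if_true]
          exact hsl i

/-- dual certificate for a lower bound -/
lemma energy_lower {A : Matrix V V ℝ} (hA : A.IsHermitian) (B : V → V → ℝ)
    (hB : ∀ x : V → ℝ, |∑ a, ∑ b, B a b * (x a * x b)| ≤ ∑ a, x a ^ 2) :
    ∑ a, ∑ b, A a b * B a b ≤ (A.charpoly.roots.map (fun x : ℝ => |x|)).sum := by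
  obtain ⟨lam, U, hs, hAab, hr, hc⟩ := exists_spec hA
  rw [hs]
  calc ∑ a, ∑ b, A a b * B a b
      = ∑ a, ∑ b, ∑ i, lam i * (B a b * (U a i * U b i)) := by
        apply Finset.sum_congr rfl
        intro a _
        apply Finset.sum_congr rfl
        intro b _
        rw [hAab, Finset.sum_mul]
        apply Finset.sum_congr rfl
        intro i _
        ring
    _ = ∑ i, lam i * ∑ a, ∑ b, B a b * (U a i * U b i) := by
        have e1 : ∀ a, ∑ b, ∑ i, lam i * (B a b * (U a i * U b i))
            = ∑ i, ∑ b, lam i * (B a b * (U a i * U b i)) := fun a => Finset.sum_comm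
        simp only [e1]
        rw [Finset.sum_comm]
        apply Finset.sum_congr rfl
        intro i _
        rw [Finset.mul_sum]
        apply Finset.sum_congr rfl
        intro a _
        rw [Finset.mul_sum]
    _ ≤ ∑ i, |lam i| := by
        apply Finset.sum_le_sum
        intro i _
        have h1 := hB (fun a => U a i)
        have h2 : ∑ a, U a i ^ 2 = 1 := by
          have := hc i i
          simp only [if_true] at this
          rw [← this]
          apply Finset.sum_congr rfl
          intro a _
          ring
        rw [h2] at h1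
        calc lam i * ∑ a, ∑ b, B a b * (U a i * U b i)
            ≤ |lam i * ∑ a, ∑ b, B a b * (U a i * U b i)| := le_abs_self _
          _ = |lam i| * |∑ a, ∑ b, B a b * (U a i * U b i)| := abs_mul _ _
          _ ≤ |lam i| * 1 := by
              apply mul_le_mul_of_nonneg_left h1 (abs_nonneg _)
          _ = |lam i| := mul_one _

lemma prod_roots_eq {A : Matrix V V ℝ} (hA : A.IsHermitian) :
    (A.charpoly.roots.map (fun x : ℝ => |x|)).prod = |A.det| := by
  rw [hA.roots_charpoly_eq_eigenvalues, Multiset.map_map, hA.det_eq_prod_eigenvalues,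
    Finset.abs_prod]
  rfl

end Pool.Agent.H377R3.EN
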