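import Mathlib

set_option autoImplicit false

namespace Pool.Agent.H377R3.EN

variable {V : Type*}

/-- graph of a parent map with root `r` -/
def pg (p : V → V) (r : V) : SimpleGraph V where
  Adj u v := u ≠ v ∧ ((u ≠ r ∧ p u = v) ∨ (v ≠ r ∧ p v = u))
  symm := ⟨fun _ _ h => ⟨h.1.symm, h.2.symm⟩⟩
  loopless := ⟨fun _ h => h.1 rfl⟩

lemma pg_adj (p : V → V) (r : V) (u v : V) :
    (pg p r).Adj u v ↔ u ≠ v ∧ ((u ≠ r ∧ p u = v) ∨ (v ≠ r ∧ p v = u)) := Iff.rfl

lemma pg_isTree [Fintype V] (p : V → V) (r : V) (rk : V → ℕ)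
    (h : ∀ v, v ≠ r → rk (p v) < rk v) : (pg p r).IsTree := by
  classical
  have hne : ∀ v, v ≠ r → v ≠ p v := by
    intro v hv he
    have := h v hv
    rw [← he] at this
    exact lt_irrefl _ this
  rw [SimpleGraph.isTree_iff_connected_and_card]
  constructor
  · have hreach : ∀ n : ℕ, ∀ v, rk v ≤ n → (pg p r).Reachable v r := by
      intro n
      induction n with
      | zero =>
        intro v hv
        by_cases hvr : v = r
        · rw [hvr]
        · have := h v hvr
          omega
      | succ n ih =>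
        intro v hv
        by_cases hvr : v = r
        · rw [hvr]
        · have h1 := h v hvr
          have h2 := ih (p v) (by omega)
          have h3 : (pg p r).Adj v (p v) := ⟨hne v hvr, Or.inl ⟨hvr, rfl⟩⟩
          exact h3.reachable.trans h2
    have : Nonempty V := ⟨r⟩
    rw [SimpleGraph.connected_iff]
    refine ⟨?_, this⟩
    intro u v
    exact (hreach _ u le_rfl).trans (hreach _ v le_rfl).symm
  · have himg : (pg p r).edgeSet = (fun v => s(v, p v)) '' {v | v ≠ r} := by
      ext e
      induction e using Sym2.ind with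
      | _ x y =>
        rw [SimpleGraph.mem_edgeSet, pg_adj]
        constructor
        · rintro ⟨hxy, (⟨hx, hp⟩ | ⟨hy, hp⟩)⟩
          · exact ⟨x, hx, by simp [hp]⟩
          · exact ⟨y, hy, by simp [hp, Sym2.eq_swap]⟩
        · rintro ⟨v, hv, hvv⟩
          simp only [Sym2.eq_iff] at hvv
          have hv' : v ≠ r := hv
          rcases hvv with ⟨h1, h2⟩ | ⟨h1, h2⟩
          · subst h1
            subst h2
            exact ⟨hne _ hv', Or.inl ⟨hv', rfl⟩⟩
          · subst h1
            subst h2
            exact ⟨(hne _ hv').symm, Or.inr ⟨hv', rfl⟩⟩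
    have hinj : Set.InjOn (fun v => s(v, p v)) {v | v ≠ r} := by
      intro v hv w hw hvw
      simp only [Sym2.eq_iff] at hvw
      rcases hvw with ⟨h1, _⟩ | ⟨h1, h2⟩
      · exact h1
      · have a1 := h v hv
        have a2 := h w hw
        rw [h2] at a1
        rw [← h1] at a2
        omega
    rw [himg, Nat.card_image_of_injOn hinj]
    have : Nat.card ({v | v ≠ r} : Set V) = Nat.card V - 1 := by
      have e : ({v | v ≠ r} : Set V) = ({r} : Set V)ᶜ := rfl
      rw [Nat.card_coe_set_eq, e, Set.ncard_compl, Set.ncard_singleton]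
    rw [this]
    have : 0 < Nat.card V := by
      rw [Nat.card_eq_fintype_card]
      exact Fintype.card_pos_iff.mpr ⟨r⟩
    omega

lemma pg_sum [Fintype V] [DecidableEq V] (p : V → V) (r : V) (rk : V → ℕ)
    [DecidableRel (pg p r).Adj]
    (h : ∀ v, v ≠ r → rk (p v) < rk v) (f : V → V → ℝ) (hf : ∀ a b, f a b = f b a) :
    ∑ a, ∑ b, (pg p r).adjMatrix ℝ a b * f a b = 2 * ∑ v ∈ Finset.univ.erase r, f v (p v) := by
  have key : ∀ a b, (pg p r).adjMatrix ℝ a b * f a b
      = (if a ≠ r ∧ p a = b then f a b else 0) + (if b ≠ r ∧ p b = a then f b a else 0) := by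
    intro a b
    rw [SimpleGraph.adjMatrix_apply]
    by_cases h1 : a ≠ r ∧ p a = b
    · have h2 : ¬ (b ≠ r ∧ p b = a) := by
        rintro ⟨hb, hb2⟩
        have e1 := h a h1.1
        have e2 := h b hb
        rw [h1.2] at e1
        rw [hb2] at e2
        omega
      have hab : a ≠ b := by
        rintro rfl
        have e1 := h a h1.1
        rw [h1.2] at e1
        exact lt_irrefl _ e1
      have h3 : (pg p r).Adj a b := ⟨hab, Or.inl h1⟩
      rw [if_pos h3, if_pos h1, if_neg h2]
      ring
    · by_cases h2 : b ≠ r ∧ p b = a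
      · have hab : a ≠ b := by
          rintro rfl
          have e1 := h a h2.1
          rw [h2.2] at e1
          exact lt_irrefl _ e1
        have h3 : (pg p r).Adj a b := ⟨hab, Or.inr h2⟩
        rw [if_pos h3, if_neg h1, if_pos h2, hf a b]
        ring
      · have h3 : ¬ (pg p r).Adj a b := by
          rintro ⟨_, h4 | h4⟩
          · exact h1 h4
          · exact h2 h4
        rw [if_neg h3, if_neg h1, if_neg h2]
        ring
  simp only [key, Finset.sum_add_distrib]
  have s1 : ∑ a, ∑ b, (if a ≠ r ∧ p a = b then f a b else 0)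
      = ∑ v ∈ Finset.univ.erase r, f v (p v) := by
    rw [← Finset.sum_erase_add _ _ (Finset.mem_univ r)]
    have z : ∑ b, (if r ≠ r ∧ p r = b then f r b else 0) = 0 := by simp
    rw [z, add_zero]
    apply Finset.sum_congr rfl
    intro a ha
    have har : a ≠ r := Finset.ne_of_mem_erase ha
    simp [har]
  have s2 : ∑ a, ∑ b, (if b ≠ r ∧ p b = a then f b a else 0)
      = ∑ v ∈ Finset.univ.erase r, f v (p v) := by
    rw [Finset.sum_comm]
    exact s1
  rw [s1, s2]
  ring

end Pool.Agent.H377R3.EN
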